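import Mathlib.Analysis.Quaternion
import Mathlib.Analysis.SpecialFunctions.Exponential
import Mathlib.MeasureTheory.Measure.Hausdorff
import Mathlib.RingTheory.PowerSeries.Basic
import Mathlib.Algebra.Order.Antidiag.Prod
import Mathlib.Data.Nat.Choose.Sum

/-!
# MP_3b44a3_an: the symmetrization can be inner although the function is not

For `f(q) = ∑ q^{m+n} J^n / n!`, `J` an imaginary unit, `f^s(q) = q^{2m}` is inner but `f` is not.
-/

set_option autoImplicit false

open MeasureTheory Filter Topology Set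
open scoped Quaternion Nat

namespace Pool.Agent.Results.MP_3b44a3_an.SymmetrizationInner

/-- the function `f(q) = ∑ qⁿ aₙ` with coefficient sequence `a` (coefficients on the right) -/
noncomputable def series (a : ℕ → ℍ) (q : ℍ) : ℍ := ∑' n, q ^ n * a n

/-- membership in `H²(𝔹)` in terms of the coefficients -/
def MemH2 (a : ℕ → ℍ) : Prop := Summable fun n => ‖a n‖ ^ 2

/-- membership in `H^∞(𝔹)` in terms of the coefficients -/
def MemHinf (a : ℕ → ℍ) : Prop :=
  (∀ q : ℍ, ‖q‖ < 1 → Summable fun n => q ^ n * a n) ∧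
  ∃ M : ℝ, ∀ q : ℍ, ‖q‖ < 1 → ‖series a q‖ ≤ M

/-- coefficients of the regular conjugate `f^c` -/
noncomputable def regConj (a : ℕ → ℍ) : ℕ → ℍ := fun n => star (a n)

/-- coefficients of the `*`-product -/
noncomputable def starMul (a b : ℕ → ℍ) : ℕ → ℍ :=
  fun n => ∑ k ∈ Finset.range (n + 1), a k * b (n - k)

/-- coefficients of the symmetrization `f^s = f^c * f` -/
noncomputable def symmetrization (a : ℕ → ℍ) : ℕ → ℍ := starMul (regConj a) a

/-- sets of three dimensional Hausdorff measure zero in `ℍ` (for subsets of the unit sphere `∂𝔹`: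
surface measure zero) -/
def SurfaceNull (S : Set ℍ) : Prop :=
  letI : MeasurableSpace ℍ := borel ℍ
  haveI : BorelSpace ℍ := ⟨rfl⟩
  Measure.hausdorffMeasure 3 S = 0

/-- inner functions, in terms of the coefficients: `φ ∈ H^∞(𝔹)`, `|φ| ≤ 1` on `𝔹`, and the radial
limit of `|φ|` exists and is `1` at almost every point of `∂𝔹` -/
def IsInner (a : ℕ → ℍ) : Prop :=
  MemHinf a ∧ (∀ q : ℍ, ‖q‖ < 1 → ‖series a q‖ ≤ 1) ∧
  SurfaceNull {q : ℍ | ‖q‖ = 1 ∧ ¬ Tendsto (fun r : ℝ => ‖series a (r • q)‖) (𝓝[<] 1) (𝓝 1)}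

/-- an imaginary unit -/
def J : ℍ := ⟨0, 1, 0, 0⟩

theorem J_re : J.re = 0 := rfl
theorem J_imI : J.imI = 1 := rfl
theorem J_imJ : J.imJ = 0 := rfl
theorem J_imK : J.imK = 0 := rfl

theorem J_mul : J * J = -1 := by
  apply Quaternion.ext <;>
    simp [Quaternion.re_mul, Quaternion.imI_mul, Quaternion.imJ_mul, Quaternion.imK_mul, J_re,
      J_imI, J_imJ, J_imK]

theorem J_star : star J = -J := by
  apply Quaternion.ext <;> simp [J_re, J_imI, J_imJ, J_imK]

theorem J_norm : ‖J‖ = 1 := by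
  have h1 : ‖J * J‖ = 1 := by rw [J_mul, norm_neg, norm_one]
  rw [norm_mul] at h1
  nlinarith [norm_nonneg J]

/-- the coefficients of `q^m e^{qJ}` -/
noncomputable def coe (m : ℕ) (n : ℕ) : ℍ := if m ≤ n then ((n - m)! : ℝ)⁻¹ • J ^ (n - m) else 0

theorem coe_add (m n : ℕ) : coe m (n + m) = (n ! : ℝ)⁻¹ • J ^ n := by
  unfold coe
  rw [if_pos (Nat.le_add_left m n), Nat.add_sub_cancel]

theorem coe_lt {m n : ℕ} (h : n < m) : coe m n = 0 := if_neg (not_le.2 h)

theorem summable_norm_coe (m : ℕ) : Summable fun n => ‖coe m n‖ := by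
  rw [← summable_nat_add_iff m]
  have h1 : (fun n => ‖coe m (n + m)‖) = fun n : ℕ => (1 : ℝ) ^ n / n ! := by
    funext n
    rw [coe_add, norm_smul, norm_pow, J_norm, norm_inv, Real.norm_natCast]
    simp
  rw [h1]
  exact Real.summable_pow_div_factorial 1

theorem norm_coe_le (m n : ℕ) : ‖coe m n‖ ≤ 1 := by
  unfold coe
  split_ifs with h
  · rw [norm_smul, norm_pow, J_norm, norm_inv, Real.norm_natCast, one_pow, mul_one]
    exact inv_le_one_of_one_le₀ (by exact_mod_cast Nat.one_le_iff_ne_zero.2 (Nat.factorial_ne_zero _))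
  · simp

theorem memH2 (m : ℕ) : MemH2 (coe m) := by
  refine Summable.of_nonneg_of_le (fun n => by positivity) (fun n => ?_) (summable_norm_coe m)
  have := norm_coe_le m n
  nlinarith [norm_nonneg (coe m n)]

theorem norm_term_le (m : ℕ) {q : ℍ} (hq : ‖q‖ ≤ 1) (n : ℕ) : ‖q ^ n * coe m n‖ ≤ ‖coe m n‖ := by
  rw [norm_mul, norm_pow]
  exact mul_le_of_le_one_left (norm_nonneg _) (pow_le_one₀ (norm_nonneg _) hq)

theorem summable_term (m : ℕ) {q : ℍ} (hq : ‖q‖ ≤ 1) : Summable fun n => q ^ n * coe m n :=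
  Summable.of_norm_bounded (summable_norm_coe m) (norm_term_le m hq)

theorem memHinf (m : ℕ) : MemHinf (coe m) := by
  refine ⟨fun q hq => summable_term m hq.le, ∑' n, ‖coe m n‖, fun q hq => ?_⟩
  exact tsum_of_norm_bounded (summable_norm_coe m).hasSum (norm_term_le m hq.le)

theorem series_at (m : ℕ) {r : ℝ} (hr : |r| ≤ 1) :
    ‖series (coe m) ((-r) • J)‖ = |r| ^ m * Real.exp r := by
  have h1 : HasSum (fun n : ℕ => r ^ n / n !) (Real.exp r) := by
    rw [Real.exp_eq_exp_ℝ]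
    exact NormedSpace.expSeries_div_hasSum_exp r
  have h2 : HasSum (fun n : ℕ => (r ^ n / n !) • ((-r) ^ m • J ^ m)) (Real.exp r • ((-r) ^ m • J ^ m)) :=
    h1.smul_const _
  have h3 : ∀ n : ℕ, ((-r) • J) ^ (n + m) * coe m (n + m) = (r ^ n / n !) • ((-r) ^ m • J ^ m) := by
    intro n
    rw [coe_add, smul_pow, mul_smul_comm, smul_mul_assoc]
    have h4 : J ^ (n + m) * J ^ n = (-1 : ℝ) ^ n • J ^ m := by
      have h5 : J ^ (n + m) * J ^ n = J ^ m * (J * J) ^ n := by
        rw [← pow_two, ← pow_mul, ← pow_add, ← pow_add]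
        congr 1
        ring
      rw [h5, J_mul]
      rcases Nat.even_or_odd n with he | ho
      · rw [he.neg_one_pow, he.neg_one_pow]; simp
      · rw [ho.neg_one_pow, ho.neg_one_pow]; simp
    rw [h4, smul_smul, smul_smul, smul_smul]
    congr 1
    rw [pow_add, neg_pow r n]
    have h6 : ((-1 : ℝ) ^ n) * (-1) ^ n = 1 := by rw [← mul_pow]; simp
    have h7 : (n ! : ℝ)⁻¹ * ((-1) ^ n * r ^ n * (-r) ^ m) * (-1) ^ n =
        ((-1 : ℝ) ^ n * (-1) ^ n) * (r ^ n / n ! * (-r) ^ m) := by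
      rw [div_eq_inv_mul]; ring
    rw [h7, h6, one_mul]
  have h8 : HasSum (fun n => ((-r) • J) ^ n * coe m n) (Real.exp r • ((-r) ^ m • J ^ m)) := by
    have h9 : HasSum (fun n => ((-r) • J) ^ (n + m) * coe m (n + m))
        (Real.exp r • ((-r) ^ m • J ^ m)) := by
      rw [funext h3]
      exact h2
    have h10 := (hasSum_nat_add_iff (f := fun n => ((-r) • J) ^ n * coe m n) m).1 h9
    have h11 : ∑ i ∈ Finset.range m, ((-r) • J) ^ i * coe m i = 0 := by
      refine Finset.sum_eq_zero fun i hi => ?_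
      rw [coe_lt (Finset.mem_range.1 hi), mul_zero]
    rwa [h11, add_zero] at h10
  unfold series
  rw [h8.tsum_eq, norm_smul, norm_smul, norm_pow, norm_pow, J_norm, one_pow, mul_one, norm_neg,
    Real.norm_eq_abs, Real.norm_eq_abs, abs_of_pos (Real.exp_pos r)]
  ring

theorem not_inner (m : ℕ) : ¬ IsInner (coe m) := by
  rintro ⟨-, h, -⟩
  set r : ℝ := 1 - 1 / (4 * (m + 1)) with hr
  have hm : (0 : ℝ) ≤ m := Nat.cast_nonneg m
  have h1 : 1 / (4 * ((m : ℝ) + 1)) ≤ 1 / 4 := by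
    apply one_div_le_one_div_of_le <;> linarith
  have h2 : 0 < 1 / (4 * ((m : ℝ) + 1)) := by positivity
  have hr0 : 3 / 4 ≤ r := by rw [hr]; linarith
  have hr1 : r < 1 := by rw [hr]; linarith
  have h3 := h ((-r) • J) (by
    rw [norm_smul, norm_neg, J_norm, mul_one, Real.norm_eq_abs, abs_of_nonneg (by linarith)]
    exact hr1)
  rw [series_at m (by rw [abs_of_nonneg (by linarith)]; exact hr1.le),
    abs_of_nonneg (by linarith)] at h3
  have h4 : 3 / 4 ≤ r ^ m := by
    have h5 := one_add_mul_le_pow (show (-2 : ℝ) ≤ -(1 / (4 * ((m : ℝ) + 1))) by linarith) m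
    have h6 : (m : ℝ) * -(1 / (4 * ((m : ℝ) + 1))) ≥ -(1 / 4) := by
      have : (m : ℝ) * (1 / (4 * ((m : ℝ) + 1))) ≤ 1 / 4 := by
        rw [mul_one_div, div_le_div_iff₀ (by positivity) (by norm_num)]
        linarith
      linarith
    have h7 : 1 + -(1 / (4 * ((m : ℝ) + 1))) = r := by rw [hr]; ring
    rw [h7] at h5
    linarith
  have h8 : 7 / 4 ≤ Real.exp r := by
    have := Real.add_one_le_exp r
    linarith
  nlinarith

theorem exp_mul_exp (n : ℕ) : ∑ p ∈ Finset.antidiagonal n,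
    ((p.1 ! : ℝ)⁻¹ • (-J) ^ p.1) * ((p.2 ! : ℝ)⁻¹ • J ^ p.2) = if n = 0 then 1 else 0 := by
  have hc : Commute (-J) J := (Commute.refl J).neg_left
  have h1 := hc.add_pow' n
  rw [neg_add_cancel] at h1
  have h2 : ∀ p ∈ Finset.antidiagonal n,
      ((p.1 ! : ℝ)⁻¹ • (-J) ^ p.1) * ((p.2 ! : ℝ)⁻¹ • J ^ p.2) =
      (n ! : ℝ)⁻¹ • (n.choose p.1 • ((-J) ^ p.1 * J ^ p.2)) := by
    intro p hp
    rw [Finset.mem_antidiagonal] at hp
    rw [smul_mul_smul_comm, ← Nat.cast_smul_eq_nsmul ℝ, smul_smul]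
    congr 1
    have h3 := Nat.choose_mul_factorial_mul_factorial (show p.1 ≤ n by omega)
    rw [show n - p.1 = p.2 by omega] at h3
    have h4 : (n ! : ℝ) = n.choose p.1 * p.1 ! * p.2 ! := by exact_mod_cast h3.symm
    rw [h4]
    have h5 : (p.1 ! : ℝ) ≠ 0 := by exact_mod_cast Nat.factorial_ne_zero _
    have h6 : (p.2 ! : ℝ) ≠ 0 := by exact_mod_cast Nat.factorial_ne_zero _
    have h7 : (n.choose p.1 : ℝ) ≠ 0 := by
      intro h8
      rw [h8, zero_mul, zero_mul] at h4
      exact Nat.factorial_ne_zero n (by exact_mod_cast h4)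
    field_simp
  rw [Finset.sum_congr rfl h2, ← Finset.smul_sum, ← h1]
  split_ifs with h
  · subst h; simp
  · rw [zero_pow h, smul_zero]

theorem mk_coe (m : ℕ) : PowerSeries.mk (coe m) =
    PowerSeries.X ^ m * PowerSeries.mk fun n => ((n ! : ℝ)⁻¹ • J ^ n : ℍ) := by
  ext n : 1
  rw [PowerSeries.coeff_mk, PowerSeries.coeff_X_pow_mul']
  unfold coe
  split_ifs <;> simp

theorem mk_conj (m : ℕ) : PowerSeries.mk (regConj (coe m)) =
    PowerSeries.X ^ m * PowerSeries.mk fun n => ((n ! : ℝ)⁻¹ • (-J) ^ n : ℍ) := by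
  ext n : 1
  rw [PowerSeries.coeff_mk, PowerSeries.coeff_X_pow_mul']
  unfold regConj coe
  split_ifs with h
  · rw [PowerSeries.coeff_mk, Quaternion.star_smul, star_pow, J_star]
  · simp

theorem mk_starMul (a b : ℕ → ℍ) :
    PowerSeries.mk (starMul a b) = PowerSeries.mk a * PowerSeries.mk b := by
  ext n : 1
  rw [PowerSeries.coeff_mk, PowerSeries.coeff_mul, Finset.Nat.sum_antidiagonal_eq_sum_range_succ_mk]
  unfold starMul
  simp

theorem symm_coe (m n : ℕ) : symmetrization (coe m) n = if n = 2 * m then 1 else 0 := by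
  have h1 : PowerSeries.mk (symmetrization (coe m)) = PowerSeries.X ^ (2 * m) := by
    unfold symmetrization
    rw [mk_starMul, mk_coe, mk_conj]
    have h2 : (PowerSeries.mk fun n => ((n ! : ℝ)⁻¹ • (-J) ^ n : ℍ)) *
        (PowerSeries.mk fun n => ((n ! : ℝ)⁻¹ • J ^ n : ℍ)) = 1 := by
      ext n : 1
      rw [PowerSeries.coeff_mul, PowerSeries.coeff_one]
      simp only [PowerSeries.coeff_mk]
      exact exp_mul_exp n
    have h3 := (PowerSeries.commute_X_pow
      (PowerSeries.mk fun n => ((n ! : ℝ)⁻¹ • (-J) ^ n : ℍ)) m).eq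
    rw [mul_assoc, ← mul_assoc _ (PowerSeries.X ^ m), h3, mul_assoc, h2, mul_one, ← pow_add, two_mul]
  have h2 := congrArg (PowerSeries.coeff n) h1
  rw [PowerSeries.coeff_mk, PowerSeries.coeff_X_pow] at h2
  exact h2

theorem series_symm (m : ℕ) (q : ℍ) :
    HasSum (fun n => q ^ n * symmetrization (coe m) n) (q ^ (2 * m)) := by
  have h1 : (fun n => q ^ n * symmetrization (coe m) n) =
      fun n => if n = 2 * m then q ^ (2 * m) else 0 := by
    funext n
    rw [symm_coe]
    split_ifs with h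
    · rw [h, mul_one]
    · rw [mul_zero]
  rw [h1]
  exact hasSum_ite_eq (2 * m) _

theorem symm_inner (m : ℕ) : IsInner (symmetrization (coe m)) := by
  have hb : ∀ q : ℍ, ‖q‖ < 1 → ‖series (symmetrization (coe m)) q‖ ≤ 1 := by
    intro q hq
    unfold series
    rw [(series_symm m q).tsum_eq, norm_pow]
    exact pow_le_one₀ (norm_nonneg _) hq.le
  refine ⟨⟨fun q _ => (series_symm m q).summable, 1, hb⟩, hb, ?_⟩
  have h1 : {q : ℍ | ‖q‖ = 1 ∧ ¬ Tendsto (fun r : ℝ => ‖series (symmetrization (coe m)) (r • q)‖)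
      (𝓝[<] 1) (𝓝 1)} = ∅ := by
    rw [Set.eq_empty_iff_forall_notMem]
    rintro q ⟨hq, h⟩
    apply h
    have h2 : (fun r : ℝ => ‖series (symmetrization (coe m)) (r • q)‖) = fun r => |r| ^ (2 * m) := by
      funext r
      unfold series
      rw [(series_symm m _).tsum_eq, norm_pow, norm_smul, hq, mul_one, Real.norm_eq_abs]
    rw [h2]
    have h3 : Tendsto (fun r : ℝ => |r| ^ (2 * m)) (𝓝 1) (𝓝 (|1| ^ (2 * m))) :=
      (Continuous.tendsto (by fun_prop) 1)
    rw [abs_one, one_pow] at h3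
    exact h3.mono_left nhdsWithin_le_nhds
  rw [h1]
  unfold SurfaceNull
  exact measure_empty

/-- For every `m` there is a bounded slice regular function `f` on the unit ball whose
symmetrization is `f^s(q) = q^{2m}`, an inner function, and which is not inner. -/
theorem result (m : ℕ) : ∃ a : ℕ → ℍ, MemH2 a ∧ MemHinf a ∧
    (∀ n, symmetrization a n = if n = 2 * m then 1 else 0) ∧
    IsInner (symmetrization a) ∧ ¬ IsInner a :=
  ⟨coe m, memH2 m, memHinf m, symm_coe m, symm_inner m, not_inner m⟩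

end Pool.Agent.Results.MP_3b44a3_an.SymmetrizationInner
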